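import Mathlib.Algebra.Order.Archimedean.Real.Basic
import Mathlib.Tactic

/-!
# The symplectic Bogomolov–Miyaoka–Yau inequality: sublinear errors are enough off a rigid class

`Q1` says `3 σ(X) ≤ e(X)` for all closed symplectic four-manifolds with `b⁺ > 1`. Call `X` *rigid* if it
contains no symplectic torus of square zero and its fundamental group has no subgroups of arbitrarily
large finite index. We show that `Q1` is equivalent to: `3 σ(X) ≤ e(X)` for the rigid minimal `X`, and for
every `ε > 0` there is a `C` with `3 σ(X) - e(X) ≤ ε |e(X)| + C` for the other minimal `X`. If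
`3 σ(X) > e(X)` for some `X` which is not rigid, then `3 σ - e ≥ k` occurs for every `k`, with the same
slope `σ / e` if `e(X) ≠ 0`.
-/

set_option autoImplicit false

namespace Pool.Agent.Results.MP_872606_gt.SublinearErrors

universe u

/-- Closed connected symplectic four-manifolds with `b⁺ > 1`. -/
structure Mfds where
  /-- the manifolds -/
  Mfd : Type u
  /-- the Euler characteristic -/
  e : Mfd → ℤ
  /-- the signature -/
  sig : Mfd → ℤ
  /-- there is no symplectic sphere of square `-1` -/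
  Minimal : Mfd → Prop
  /-- `X` contains a symplectic torus of square zero -/
  HasTorus : Mfd → Prop
  /-- the fundamental group of `X` has subgroups of arbitrarily large finite index -/
  HasCovers : Mfd → Prop

/-- The known properties. -/
structure IsKnown (T : Mfds.{u}) : Prop where
  /-- blowing down: `X` is a blow up of a minimal manifold at `m` points -/
  blowDown : ∀ X : T.Mfd, ∃ (Y : T.Mfd) (m : ℕ), T.Minimal Y ∧ T.e X = T.e Y + m ∧
    T.sig X = T.sig Y - m
  /-- Gompf, Usher: the `k`-fold symplectic sum of a minimal `X` along a symplectic torus of square zero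
  is symplectic and minimal and contains such a torus; the Euler characteristic and the signature
  (Novikov) are multiplied by `k` -/
  sum : ∀ X : T.Mfd, T.Minimal X → T.HasTorus X → ∀ k : ℕ, 1 ≤ k → ∃ Y : T.Mfd, T.Minimal Y ∧
    T.HasTorus Y ∧ T.e Y = k * T.e X ∧ T.sig Y = k * T.sig X
  /-- finite covers of a minimal `X` are minimal and symplectic with `b⁺ > 1`; their fundamental groups
  have subgroups of arbitrarily large index; `e` and `σ` are multiplicative -/
  cover : ∀ X : T.Mfd, T.Minimal X → T.HasCovers X → ∀ K : ℕ, ∃ (Y : T.Mfd) (k : ℕ), K ≤ k ∧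
    T.Minimal Y ∧ T.HasCovers Y ∧ T.e Y = k * T.e X ∧ T.sig Y = k * T.sig X

variable {T : Mfds.{u}}

/-- no symplectic torus of square zero, and no subgroups of large finite index -/
def Rigid (X : T.Mfd) : Prop := ¬ T.HasTorus X ∧ ¬ T.HasCovers X

/-- the Bogomolov–Miyaoka–Yau inequality `3 σ ≤ e` -/
def BMY (X : T.Mfd) : Prop := 3 * T.sig X ≤ T.e X

theorem large (hT : IsKnown T) {X : T.Mfd} (hm : T.Minimal X) (hr : ¬ Rigid X) (K : ℕ) :
    ∃ (Y : T.Mfd) (k : ℕ), K ≤ k ∧ 1 ≤ k ∧ T.Minimal Y ∧ ¬ Rigid Y ∧ T.e Y = k * T.e X ∧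
      T.sig Y = k * T.sig X := by
  by_cases ht : T.HasTorus X
  · obtain ⟨Y, h1, h2, h3, h4⟩ := hT.sum X hm ht (K + 1) (by omega)
    exact ⟨Y, K + 1, by omega, by omega, h1, fun h => h.1 h2, h3, h4⟩
  · have hc : T.HasCovers X := by
      by_contra hc
      exact hr ⟨ht, hc⟩
    obtain ⟨Y, k, h0, h1, h2, h3, h4⟩ := hT.cover X hm hc (K + 1)
    exact ⟨Y, k, by omega, by omega, h1, fun h => h.2 h2, h3, h4⟩

/-- **The symplectic Bogomolov–Miyaoka–Yau inequality.** -/
theorem result (T : Mfds.{u}) (hT : IsKnown T) :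
    (∀ X : T.Mfd, T.Minimal X → ¬ Rigid X → ¬ BMY X → ∀ K : ℕ, ∃ (Y : T.Mfd) (k : ℕ), K ≤ k ∧
      T.Minimal Y ∧ ¬ Rigid Y ∧ T.e Y = k * T.e X ∧ T.sig Y = k * T.sig X ∧
      (K : ℤ) ≤ 3 * T.sig Y - T.e Y) ∧
    ((∀ X : T.Mfd, BMY X) ↔ (∀ X : T.Mfd, T.Minimal X → Rigid X → BMY X) ∧
      ∀ ε : ℝ, 0 < ε → ∃ C : ℝ, ∀ X : T.Mfd, T.Minimal X → ¬ Rigid X →
        (3 * T.sig X - T.e X : ℝ) ≤ ε * |(T.e X : ℝ)| + C) := by
  constructor
  · intro X hm hr hb K
    obtain ⟨Y, k, h0, h1, h2, h3, h4, h5⟩ := large hT hm hr K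
    refine ⟨Y, k, h0, h2, h3, h4, h5, ?_⟩
    unfold BMY at hb
    have h6 : 1 ≤ 3 * T.sig X - T.e X := by omega
    have h7 : (K : ℤ) ≤ k := by exact_mod_cast h0
    rw [h4, h5]
    nlinarith
  · constructor
    · intro h
      refine ⟨fun X _ _ => h X, fun ε hε => ⟨0, fun X _ _ => ?_⟩⟩
      have h1 : 3 * T.sig X ≤ T.e X := h X
      have h2 : (3 * T.sig X : ℝ) ≤ T.e X := by exact_mod_cast h1
      have h3 : 0 ≤ ε * |(T.e X : ℝ)| := by positivity
      linarith
    · rintro ⟨h1, h2⟩ X₀
      obtain ⟨X, m, hm, he, hs⟩ := hT.blowDown X₀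
      have key : BMY X := by
        by_cases hr : Rigid X
        · exact h1 X hm hr
        · by_contra hb
          unfold BMY at hb
          have h3 : 1 ≤ 3 * T.sig X - T.e X := by omega
          have h3' : (1 : ℝ) ≤ 3 * T.sig X - T.e X := by exact_mod_cast h3
          obtain ⟨C, hC⟩ := h2 (1 / (2 * (|(T.e X : ℝ)| + 1))) (by positivity)
          obtain ⟨K, hK⟩ := exists_nat_gt (2 * C)
          obtain ⟨Y, k, h4, h5, h6, h7, h8, h9⟩ := large hT hm hr K
          have h10 := hC Y h6 h7
          have hk : (K : ℝ) ≤ k := by exact_mod_cast h4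
          have hk1 : (1 : ℝ) ≤ k := by exact_mod_cast h5
          have e1 : (T.e Y : ℝ) = k * T.e X := by exact_mod_cast h8
          have e2 : (T.sig Y : ℝ) = k * T.sig X := by exact_mod_cast h9
          rw [e1, e2, abs_mul, abs_of_nonneg (by linarith : (0 : ℝ) ≤ k)] at h10
          have h11 : 1 / (2 * (|(T.e X : ℝ)| + 1)) * (k * |(T.e X : ℝ)|) ≤ k / 2 := by
            rw [div_mul_eq_mul_div, one_mul, div_le_div_iff₀ (by positivity) (by norm_num)]
            nlinarith [abs_nonneg (T.e X : ℝ)]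
          nlinarith
      unfold BMY at key ⊢
      rw [he, hs]
      omega

end Pool.Agent.Results.MP_872606_gt.SublinearErrors
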